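import Pool.Agent.X206.TorusRadial

/-!
# MP_8d7c8e_an : one radial approach with decreasing radii failing at almost every point
-/

set_option autoImplicit false

open MeasureTheory Filter Topology
open Pool.Agent.X206.TorusRadial

namespace Pool.Agent.Results.MP_8d7c8e_an.SingleApproach

/-- **Main result.** There are `f ∈ H^∞(𝕋^∞)` and a single radial approach `(r k)`, independent of
the boundary point and with decreasing radii, such that for almost every boundary point the values
`f(r k e^{iθ}) = (f * P_{r k})(θ)` do not converge to `f(e^{iθ})`. -/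
theorem result : ∃ f : TI → ℂ, HInf f ∧ ∃ r : ℕ → ℕ → Set.Ico (0 : ℝ) 1,
    (∀ n, Tendsto (fun k => (r k n : ℝ)) atTop (𝓝 1)) ∧
    (∀ k n, r k (n + 1) ≤ r k n) ∧
    ∀ᵐ θ ∂haar, ¬ Tendsto (fun k => radial f (r k) θ) atTop (𝓝 (f θ)) := by
  classical
  obtain ⟨f, hf, hf0, s, t, P, hPf, hPn, R, hsm, htm, ht1, hanti, hR1, hRt, hR3, hmain⟩ := core
  have hinf : Infinite (Σ j, P j) :=
    Infinite.of_injective (fun j : ℕ => (⟨j, Classical.choice (hPn j)⟩ : Σ j, P j))
      fun a b h => congrArg Sigma.fst h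
  have hcount : Countable (Σ j, P j) := inferInstance
  obtain ⟨hden⟩ := nonempty_denumerable (Σ j, P j)
  let en : ℕ ≃ Σ j, P j := (Denumerable.eqv (Σ j, P j)).symm
  have hfst : Tendsto (fun q : Σ j, P j => q.1) cofinite atTop := by
    rw [tendsto_atTop]
    intro J
    rw [Filter.eventually_cofinite]
    have : {q : Σ j, P j | ¬ J ≤ q.1} ⊆ ⋃ j ∈ Set.Iio J, Set.range (Sigma.mk j : P j → Σ j, P j) := by
      rintro ⟨j, p⟩ hq
      simp only [Set.mem_iUnion]
      exact ⟨j, not_le.1 hq, ⟨p, rfl⟩⟩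
    refine Set.Finite.subset ((Set.finite_Iio J).biUnion fun j _ => ?_) this
    exact Set.finite_range _
  have hj : Tendsto (fun k => (en k).1) atTop atTop := by
    rw [← Nat.cofinite_eq_atTop]
    have := hfst.comp en.injective.tendsto_cofinite
    rw [Nat.cofinite_eq_atTop] at this ⊢
    exact this
  refine ⟨f, hf, fun k => R (en k).1 (en k).2, fun n => ?_, fun k n => hanti _ _ (Nat.le_succ n), ?_⟩
  · refine (ht1.comp hj).congr' ?_
    filter_upwards [hj.eventually_ge_atTop (n + 1)] with k hk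
    have h1 : n < s (en k).1 := lt_of_lt_of_le (Nat.lt_of_succ_le hk) (hsm.id_le _)
    simp only [Function.comp]
    rw [hR1 _ _ _ h1]
  · filter_upwards [hmain, hf0] with θ h1 h2 hT
    have hpos : 0 < ‖f θ‖ := norm_pos_iff.2 h2
    have h3 : ∀ᶠ k in atTop, ‖f θ‖ / 2 < ‖radial f (R (en k).1 (en k).2) θ‖ :=
      hT.norm.eventually (lt_mem_nhds (by linarith))
    obtain ⟨K, hK⟩ := eventually_atTop.1 h3
    have h4 : ∀ᶠ j : ℕ in atTop, Real.exp (-(j : ℝ)) < ‖f θ‖ / 2 := by
      have : Tendsto (fun j : ℕ => Real.exp (-(j : ℝ))) atTop (𝓝 0) :=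
        Real.tendsto_exp_neg_atTop_nhds_zero.comp tendsto_natCast_atTop_atTop
      exact this.eventually (gt_mem_nhds (by linarith))
    have h5 : ∀ᶠ j : ℕ in atTop, (Finset.range K).sup (fun k => (en k).1) < j :=
      eventually_gt_atTop _
    obtain ⟨j, ⟨p, hp⟩, hj4, hj5⟩ := (h1.and (h4.and h5)).exists
    have h6 : K ≤ en.symm ⟨j, p⟩ := by
      by_contra hcon
      rw [not_le] at hcon
      have h7 : (en (en.symm ⟨j, p⟩)).1 ≤ (Finset.range K).sup (fun k => (en k).1) :=
        Finset.le_sup (f := fun k => (en k).1) (Finset.mem_range.2 hcon)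
      rw [Equiv.apply_symm_apply] at h7
      exact absurd hj5 (not_lt.2 h7)
    have h8 := hK _ h6
    rw [Equiv.apply_symm_apply] at h8
    exact absurd (hp.trans_lt hj4) (not_lt.2 h8.le)

end Pool.Agent.Results.MP_8d7c8e_an.SingleApproach
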